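import Pool.Agent.N463.MI.Stm

/-!
Project MI (helper463), part E05b: derivatives and bounds along the ray.
-/

open Finset

noncomputable section

namespace Pool.Agent.N687.MI

open Pool.Agent.N463.MI

theorem exp_sp (t x u : ℝ) :
    Complex.exp (-(sp t x u)) = ((Real.exp (-(t * u)) : ℝ) : ℂ) *
      Complex.exp (((t * u * x : ℝ) : ℂ) * Complex.I) := by
  unfold sp
  rw [Complex.ofReal_exp, ← Complex.exp_add]
  congr 1
  push_cast
  ring

theorem re_w (t x u : ℝ) :
    (Complex.exp (-(sp t x u))).re = Real.exp (-(t * u)) * Real.cos (t * u * x) := by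
  rw [exp_sp, Complex.re_ofReal_mul, Complex.exp_ofReal_mul_I_re]

theorem norm_w (t x u : ℝ) :
    ‖Complex.exp (-(sp t x u))‖ = Real.exp (-(t * u)) := by
  rw [exp_sp, norm_mul, Complex.norm_exp_ofReal_mul_I, mul_one, Complex.norm_real,
    Real.norm_of_nonneg (Real.exp_pos _).le]

theorem re_lb (h1 : E01) {b t x u : ℝ} (hb0 : 0 ≤ b) (hb : b ≤ 3) (ht : 0 < t) (hx : |x| ≤ 1)
    (hu : 0 ≤ u) : 79 / 100 ≤ (1 + (b : ℂ) * Complex.exp (-(sp t x u))).re := by
  have h := h1 b (t * u) (t * u * x) hb0 hb (by positivity) (by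
    rw [abs_mul, abs_of_nonneg (by positivity : (0 : ℝ) ≤ t * u)]
    nlinarith [mul_nonneg ht.le hu])
  rw [Complex.add_re, Complex.one_re, Complex.re_ofReal_mul, re_w]
  linarith

theorem re_lb1 (h1 : E01) {t x u : ℝ} (ht : 0 < t) (hx : |x| ≤ 1)
    (hu : 0 ≤ u) : 93 / 100 ≤ (1 + (1 : ℂ) * Complex.exp (-(sp t x u))).re := by
  have h := h1 3 (t * u) (t * u * x) (by norm_num) le_rfl (by positivity) (by
    rw [abs_mul, abs_of_nonneg (by positivity : (0 : ℝ) ≤ t * u)]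
    nlinarith [mul_nonneg ht.le hu])
  rw [Complex.add_re, Complex.one_re, one_mul, re_w]
  linarith

theorem log_bd {z : ℂ} (hz : 79 / 100 ≤ z.re) : ‖Complex.log z‖ ≤ 100 / 79 * ‖z - 1‖ := by
  have hconv : Convex ℝ {z : ℂ | 79 / 100 ≤ z.re} := convex_halfSpace_re_ge _
  have key := Convex.norm_image_sub_le_of_norm_hasDerivWithin_le (𝕜 := ℂ) (f := Complex.log)
    (f' := fun z => z⁻¹) (C := 100 / 79) (s := {z : ℂ | 79 / 100 ≤ z.re}) (x := 1) (y := z)
    (fun w hw => by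
      have hw' : 79 / 100 ≤ w.re := hw
      exact (Complex.hasDerivAt_log (Or.inl (by linarith))).hasDerivWithinAt)
    (fun w hw => by
      have hw' : 79 / 100 ≤ w.re := hw
      have h2 : 79 / 100 ≤ ‖w‖ := hw'.trans (Complex.re_le_norm w)
      rw [norm_inv]
      calc ‖w‖⁻¹ ≤ (79 / 100)⁻¹ := inv_anti₀ (by norm_num) h2
        _ = 100 / 79 := by norm_num)
    hconv (by simp; norm_num) hz
  simpa using key

theorem hasDeriv_w (t x u : ℝ) :
    HasDerivAt (fun u : ℝ => Complex.exp (-(sp t x u)))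
      (-((t : ℂ) * (1 - (x : ℂ) * Complex.I)) * Complex.exp (-(sp t x u))) u := by
  have h0 : HasDerivAt (fun u : ℝ => (u : ℂ)) 1 u := Complex.ofRealCLM.hasDerivAt
  have h1 : HasDerivAt (fun u : ℝ => -(sp t x u)) (-((t : ℂ) * (1 - (x : ℂ) * Complex.I))) u := by
    have h5 := (h0.mul_const ((t : ℂ) * (1 - (x : ℂ) * Complex.I))).neg
    rw [one_mul] at h5
    exact h5
  have h2 := h1.cexp
  rw [mul_comm]
  exact h2

/-- first derivative of one logarithm -/
theorem hasDeriv_log (h1 : E01) {b t x u : ℝ} (hb0 : 0 ≤ b) (hb : b ≤ 3) (ht : 0 < t)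
    (hx : |x| ≤ 1) (hu : 0 ≤ u) :
    HasDerivAt (fun u : ℝ => Complex.log (1 + (b : ℂ) * Complex.exp (-(sp t x u))))
      (-((t : ℂ) * (1 - (x : ℂ) * Complex.I)) * ((b : ℂ) * Complex.exp (-(sp t x u))) /
        (1 + (b : ℂ) * Complex.exp (-(sp t x u)))) u := by
  have h2 := ((hasDeriv_w t x u).const_mul (b : ℂ)).const_add 1
  have h3 := h2.clog_real (Or.inl (by
    have := re_lb h1 hb0 hb ht hx hu
    linarith))
  refine h3.congr_deriv ?_
  ring

/-- second derivative of one logarithm -/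
theorem hasDeriv_log' (h1 : E01) {b t x u : ℝ} (hb0 : 0 ≤ b) (hb : b ≤ 3) (ht : 0 < t)
    (hx : |x| ≤ 1) (hu : 0 ≤ u) :
    HasDerivAt (fun u : ℝ => -((t : ℂ) * (1 - (x : ℂ) * Complex.I)) *
        ((b : ℂ) * Complex.exp (-(sp t x u))) / (1 + (b : ℂ) * Complex.exp (-(sp t x u))))
      (((t : ℂ) * (1 - (x : ℂ) * Complex.I)) ^ 2 * ((b : ℂ) * Complex.exp (-(sp t x u))) /
        (1 + (b : ℂ) * Complex.exp (-(sp t x u))) ^ 2) u := by
  have hne : (1 + (b : ℂ) * Complex.exp (-(sp t x u))) ≠ 0 := by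
    intro h
    have := re_lb h1 hb0 hb ht hx hu
    rw [h] at this
    simp at this
    linarith
  have hw := (hasDeriv_w t x u).const_mul (b : ℂ)
  have h2 := hw.const_add 1
  have h3 := (hw.const_mul (-((t : ℂ) * (1 - (x : ℂ) * Complex.I)))).div h2 hne
  refine h3.congr_deriv ?_
  field_simp
  ring

theorem norm_tau {t x : ℝ} (hx : |x| ≤ 1) :
    ‖(t : ℂ) * (1 - (x : ℂ) * Complex.I)‖ ^ 2 ≤ 2 * t ^ 2 := by
  rw [norm_mul, mul_pow, ← Complex.normSq_eq_norm_sq, ← Complex.normSq_eq_norm_sq,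
    Complex.normSq_ofReal]
  have : Complex.normSq (1 - (x : ℂ) * Complex.I) = 1 + x ^ 2 := by
    simp [Complex.normSq_apply]; ring
  rw [this]
  have hx2 : x ^ 2 ≤ 1 := by
    rw [← sq_abs]
    nlinarith [abs_nonneg x]
  nlinarith [sq_nonneg t]

theorem t_E05b (h1 : E01) : E05b := by
  intro a t x ha ht hx
  have ha0 : 0 ≤ a := by rcases ha with h | h <;> rw [h] <;> norm_num
  have ha3 : a ≤ 3 := by rcases ha with h | h <;> rw [h] <;> norm_num
  set τ : ℂ := (t : ℂ) * (1 - (x : ℂ) * Complex.I) with hτ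
  have hτ2 : ‖τ‖ ^ 2 ≤ 2 * t ^ 2 := norm_tau hx
  have hτ1 : ‖τ‖ ≤ 2 * t := by
    refine abs_le_of_sq_le_sq' ?_ (by positivity) |>.2
    nlinarith [sq_nonneg t]
  have e1 : ∀ u : ℝ, (1 + (1 : ℂ) * Complex.exp (-(sp t x u))) =
      (1 + Complex.exp (-(sp t x u))) := fun u => by rw [one_mul]
  refine ⟨fun u => -τ * ((a : ℂ) * Complex.exp (-(sp t x u))) /
      (1 + (a : ℂ) * Complex.exp (-(sp t x u))) -
      -τ * (((1 : ℝ) : ℂ) * Complex.exp (-(sp t x u))) /
      (1 + ((1 : ℝ) : ℂ) * Complex.exp (-(sp t x u))),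
    fun u => τ ^ 2 * ((a : ℂ) * Complex.exp (-(sp t x u))) /
        (1 + (a : ℂ) * Complex.exp (-(sp t x u))) ^ 2 -
      τ ^ 2 * (((1 : ℝ) : ℂ) * Complex.exp (-(sp t x u))) /
        (1 + ((1 : ℝ) : ℂ) * Complex.exp (-(sp t x u))) ^ 2, ?_, ?_, ?_, ?_, ?_, ?_⟩
  · intro u hu
    have hA := hasDeriv_log h1 ha0 ha3 ht hx hu
    have hB := hasDeriv_log h1 (b := 1) (by norm_num) (by norm_num) ht hx hu
    have hC := hA.sub hB
    refine hC.congr_of_eventuallyEq (Filter.Eventually.of_forall fun v => ?_)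
    simp [gg]
  · intro u hu
    have hA := hasDeriv_log' h1 ha0 ha3 ht hx hu
    have hB := hasDeriv_log' h1 (b := 1) (by norm_num) (by norm_num) ht hx hu
    exact hA.sub hB
  · have hcw : Continuous (fun u : ℝ => Complex.exp (-(sp t x u))) :=
      continuous_iff_continuousAt.2 fun u => (hasDeriv_w t x u).continuousAt
    have hne : ∀ b : ℝ, 0 ≤ b → b ≤ 3 → ∀ u ∈ Set.Ici (0 : ℝ),
        (1 + (b : ℂ) * Complex.exp (-(sp t x u))) ^ 2 ≠ 0 := by
      intro b hb0 hb u hu h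
      have h' := pow_eq_zero_iff (two_ne_zero) |>.1 h
      have := re_lb h1 hb0 hb ht hx hu
      rw [h'] at this
      simp at this
      linarith
    have hcd : ∀ b : ℝ, ContinuousOn (fun u : ℝ => (1 + (b : ℂ) * Complex.exp (-(sp t x u))) ^ 2)
        (Set.Ici (0 : ℝ)) := fun b =>
      ((continuous_const.add (continuous_const.mul hcw)).pow 2).continuousOn
    have hcn : ∀ b : ℝ, ContinuousOn (fun u : ℝ => τ ^ 2 * ((b : ℂ) * Complex.exp (-(sp t x u))))
        (Set.Ici (0 : ℝ)) := fun b =>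
      (continuous_const.mul (continuous_const.mul hcw)).continuousOn
    exact ContinuousOn.sub (ContinuousOn.div (hcn a) (hcd a) (hne a ha0 ha3))
      (ContinuousOn.div (hcn 1) (hcd 1) (hne 1 (by norm_num) (by norm_num)))
  · intro u hu
    have hA := re_lb h1 ha0 ha3 ht hx hu
    have hB := re_lb1 h1 ht hx hu
    have hA' : 79 / 100 ≤ ‖1 + (a : ℂ) * Complex.exp (-(sp t x u))‖ :=
      hA.trans (Complex.re_le_norm _)
    have hB' : 93 / 100 ≤ ‖1 + (1 : ℂ) * Complex.exp (-(sp t x u))‖ :=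
      hB.trans (Complex.re_le_norm _)
    have hW := norm_w t x u
    have hWp := Real.exp_pos (-(t * u))
    have n1 : ‖τ ^ 2 * ((a : ℂ) * Complex.exp (-(sp t x u))) /
        (1 + (a : ℂ) * Complex.exp (-(sp t x u))) ^ 2‖ ≤
        (2 * t ^ 2 * (3 * Real.exp (-(t * u)))) / (79 / 100) ^ 2 := by
      rw [norm_div, norm_mul, norm_mul, norm_pow, norm_pow, hW, Complex.norm_real,
        Real.norm_of_nonneg ha0]
      gcongr
    have n2 : ‖τ ^ 2 * (((1 : ℝ) : ℂ) * Complex.exp (-(sp t x u))) /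
        (1 + ((1 : ℝ) : ℂ) * Complex.exp (-(sp t x u))) ^ 2‖ ≤
        (2 * t ^ 2 * (1 * Real.exp (-(t * u)))) / (93 / 100) ^ 2 := by
      rw [norm_div, norm_mul, norm_mul, norm_pow, norm_pow, hW, Complex.ofReal_one, norm_one]
      gcongr
    refine (norm_sub_le _ _).trans ((add_le_add n1 n2).trans ?_)
    have h7 : 0 ≤ t ^ 2 * Real.exp (-(t * u)) := by positivity
    have h8 : 2 * t ^ 2 * (3 * Real.exp (-(t * u))) / (79 / 100) ^ 2 +
        2 * t ^ 2 * (1 * Real.exp (-(t * u))) / (93 / 100) ^ 2 =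
        (6 / (79 / 100) ^ 2 + 2 / (93 / 100) ^ 2) * (t ^ 2 * Real.exp (-(t * u))) := by ring
    rw [h8]
    have h9 : (6 / (79 / 100) ^ 2 + 2 / (93 / 100) ^ 2 : ℝ) ≤ 12 := by norm_num
    calc _ ≤ 12 * (t ^ 2 * Real.exp (-(t * u))) := mul_le_mul_of_nonneg_right h9 h7
      _ = _ := by ring
  · intro u hu
    have hA := re_lb h1 ha0 ha3 ht hx hu
    have hB := re_lb1 h1 ht hx hu
    have hA' : 79 / 100 ≤ ‖1 + (a : ℂ) * Complex.exp (-(sp t x u))‖ :=
      hA.trans (Complex.re_le_norm _)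
    have hB' : 93 / 100 ≤ ‖1 + (1 : ℂ) * Complex.exp (-(sp t x u))‖ :=
      hB.trans (Complex.re_le_norm _)
    have hW := norm_w t x u
    have hWp := Real.exp_pos (-(t * u))
    have n1 : ‖-τ * ((a : ℂ) * Complex.exp (-(sp t x u))) /
        (1 + (a : ℂ) * Complex.exp (-(sp t x u)))‖ ≤
        (2 * t * (3 * Real.exp (-(t * u)))) / (79 / 100) := by
      rw [norm_div, norm_mul, norm_mul, norm_neg, hW, Complex.norm_real,
        Real.norm_of_nonneg ha0]
      gcongr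
    have n2 : ‖-τ * (((1 : ℝ) : ℂ) * Complex.exp (-(sp t x u))) /
        (1 + ((1 : ℝ) : ℂ) * Complex.exp (-(sp t x u)))‖ ≤
        (2 * t * (1 * Real.exp (-(t * u)))) / (93 / 100) := by
      rw [norm_div, norm_mul, norm_mul, norm_neg, hW, Complex.ofReal_one, norm_one]
      gcongr
    refine (norm_sub_le _ _).trans ((add_le_add n1 n2).trans ?_)
    have : 0 ≤ t * Real.exp (-(t * u)) := by positivity
    nlinarith
  · intro u hu
    have hA := re_lb h1 ha0 ha3 ht hx hu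
    have hB : 79 / 100 ≤ (1 + Complex.exp (-(sp t x u))).re := by
      have := re_lb1 h1 ht hx hu
      rw [one_mul] at this
      linarith
    have hW := norm_w t x u
    have hWp := Real.exp_pos (-(t * u))
    have n1 := log_bd hA
    have n2 := log_bd hB
    rw [add_sub_cancel_left, norm_mul, hW, Complex.norm_real, Real.norm_of_nonneg ha0] at n1
    rw [add_sub_cancel_left, hW] at n2
    unfold gg
    refine (norm_sub_le _ _).trans ((add_le_add n1 n2).trans ?_)
    nlinarith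

end Pool.Agent.N687.MI
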